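import Pool.Agent.Q280.SI.Atrm

/-!
# The rank one Stark conjecture over complex cubic fields, up to powers
-/

set_option autoImplicit false

namespace Pool.Agent.Results.MP_d9f52e_nt.RankOneGivesAllRanks

open NumberField Pool.Agent.Q20.SI Pool.Agent.Q280.SI

/-- **Theorem.** Let `F` be a complex cubic field.
(1) Let `K/F` be an abelian extension unramified outside the ideal `𝔣 ≠ 0, (1)`, for example the narrow ray
class field. There are `n ≥ 1` and a unit `u` of `K` with `n ζ_𝔣'(g, 0) = - log |g u|_v` for all `g`, of
absolute value one at the places above the real place, if and only if for every character `χ` of `G` with a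
simple zero of `L_𝔣(s, χ)` at `s = 0` the defects of Stark's equality satisfy
`d_σ(χη) d_σ(χ|F₁) d_σ(χ|F₂) = d_σ(χ|F₃)`, for a quadratic character `η` with `χη` unramified at the real
place (order of vanishing two) and characters `χ|F_i` which are unramified at all finite places.
(2) Grant the rational form of Stark's conjecture for the cyclic extensions of finite extensions of `F`
which are unramified at all finite places. Then the units in (1) exist for all `K`, `𝔣` if and only if
the rational form of Stark's conjecture, in Rubin's form of any order `r`, holds for all abelian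
extensions of `F`. -/
theorem result (F : Type) [Field F] [NumberField F] (hC : InfinitePlace.nrComplexPlaces F = 1)
    (h3 : Module.finrank ℚ F = 3) :
    (∀ (K : Type) [Field K] [NumberField K] [Algebra F K] [IsGalois F K] (D : AtrData F K),
      D.Q1 ↔ ∀ χ : (K ≃ₐ[F] K) →* ℂˣ, D.Exact χ → RelE χ) ∧
    (UnramifiedCase F →
      ((∀ (K : Type) [Field K] [NumberField K] [Algebra F K] [IsGalois F K] (D : AtrData F K),
        D.Q1) ↔
      ∀ (K : Type) [Field K] [NumberField K] [Algebra F K] [IsGalois F K] (D : OrderData F K),
        D.Q1)) := by
  have h1 : 1 ≤ InfinitePlace.nrRealPlaces F := by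
    have h := InfinitePlace.card_add_two_mul_card_eq_rank F
    omega
  exact ⟨fun _ => fun D => atr_rel D h1 hC, atr_all h1 hC⟩

end Pool.Agent.Results.MP_d9f52e_nt.RankOneGivesAllRanks
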